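import Pool.Agent.Helper84.Kos.Goals

set_option autoImplicit false

namespace Pool.Agent.Helper96.Kos

open LieAlgebra Pool.Agent.Helper84.Kos

variable {L : Type} [LieRing L] [LieAlgebra ℚ L]

/-- Codimension one step. -/
theorem stepB (k : ℕ) (hk : ∀ x : L, ad ℚ L x ^ k = 0) (K J : LieSubalgebra ℚ L) (y : L)
    (hJK : J ≤ K) (hyK : y ∈ K) (hyJ : y ∉ J) (hid : ∀ x ∈ K, ∀ z ∈ J, ⁅x, z⁆ ∈ J)
    (hcod : ∀ s ∈ K, ∃ z ∈ J, ∃ t : ℚ, s = z + t • y)
    (hS : ∃ S : Set L, S.Finite ∧ LieSubalgebra.lieSpan ℚ L S = K) :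
    ∃ S : Set L, S.Finite ∧ LieSubalgebra.lieSpan ℚ L S = J := by
  classical
  obtain ⟨S, hSf, hSK⟩ := hS
  have hSsub : ∀ s ∈ S, s ∈ K := fun s hs => by
    rw [← hSK]; exact LieSubalgebra.subset_lieSpan hs
  choose! X hXJ t hXt using hcod
  set T : Set L := (fun p : ℕ × L => (ad ℚ L y ^ p.1) (X p.2)) '' (Set.Iio (k + 1) ×ˢ S) with hT
  have hTf : T.Finite := ((Set.finite_Iio _).prod hSf).image _
  have hpow : ∀ (j : ℕ) (z : L), z ∈ J → (ad ℚ L y ^ j) z ∈ J := by
    intro j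
    induction j with
    | zero => intro z hz; simpa using hz
    | succ j ih =>
      intro z hz
      rw [pow_succ', Module.End.mul_apply, ad_apply]
      exact hid y hyK _ (ih z hz)
  have hTJ : T ⊆ J := by
    rintro _ ⟨⟨j, s⟩, ⟨_, hs⟩, rfl⟩
    exact hpow j _ (hXJ s (hSsub s hs))
  set N := LieSubalgebra.lieSpan ℚ L T with hN
  have hNJ : N ≤ J := LieSubalgebra.lieSpan_le.2 hTJ
  have hstab : ∀ v ∈ N, ⁅y, v⁆ ∈ N := by
    intro v hv
    refine LieSubalgebra.lieSpan_induction (p := fun v _ => ⁅y, v⁆ ∈ N) ℚ ?_ ?_ ?_ ?_ ?_ hv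
    · rintro _ ⟨⟨j, s⟩, ⟨hj, hs⟩, rfl⟩
      simp only [Set.mem_Iio] at hj
      by_cases hjk : j + 1 < k + 1
      · apply LieSubalgebra.subset_lieSpan
        refine ⟨⟨j + 1, s⟩, ⟨hjk, hs⟩, ?_⟩
        simp only [pow_succ', Module.End.mul_apply, ad_apply]
      · have hjk' : j = k := by omega
        subst hjk'
        simp only [hk, LinearMap.zero_apply, lie_zero]
        exact N.zero_mem
    · simp
    · intro a b _ _ ha hb
      rw [lie_add]; exact N.add_mem ha hb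
    · intro c a _ ha
      rw [lie_smul]; exact N.smul_mem _ ha
    · intro a b ha hb ha' hb'
      rw [leibniz_lie]
      exact N.add_mem (N.lie_mem ha' hb) (N.lie_mem ha hb')
  -- the subalgebra N + Q y
  let M : LieSubalgebra ℚ L :=
    { (N.toSubmodule ⊔ Submodule.span ℚ {y}) with
      lie_mem' := by
        intro u v hu hv
        simp only [AddSubsemigroup.mem_carrier, AddSubmonoid.mem_toSubsemigroup,
          Submodule.mem_toAddSubmonoid] at hu hv ⊢
        obtain ⟨n, hn, a, ha, rfl⟩ := Submodule.mem_sup.1 hu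
        obtain ⟨n', hn', a', ha', rfl⟩ := Submodule.mem_sup.1 hv
        obtain ⟨r, rfl⟩ := Submodule.mem_span_singleton.1 ha
        obtain ⟨r', rfl⟩ := Submodule.mem_span_singleton.1 ha'
        apply Submodule.mem_sup_left
        have e : ⁅n + r • y, n' + r' • y⁆ = ⁅n, n'⁆ + (-r') • ⁅y, n⁆ + r • ⁅y, n'⁆ := by
          rw [add_lie, lie_add, lie_add, lie_smul, smul_lie, smul_lie, lie_smul, lie_self,
            smul_zero, smul_zero, add_zero, ← lie_skew n y, smul_neg, neg_smul]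
          
        rw [e]
        exact N.add_mem (N.add_mem (N.lie_mem hn hn') (N.smul_mem _ (hstab n hn)))
          (N.smul_mem _ (hstab n' hn')) }
  have hKM : K ≤ M := by
    rw [← hSK]
    apply LieSubalgebra.lieSpan_le.2
    intro s hs
    have hsK := hSsub s hs
    show s ∈ N.toSubmodule ⊔ Submodule.span ℚ {y}
    rw [hXt s hsK]
    refine Submodule.add_mem_sup ?_ (Submodule.smul_mem _ _ (Submodule.mem_span_singleton_self y))
    apply LieSubalgebra.subset_lieSpan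
    exact ⟨⟨0, s⟩, ⟨by simp, hs⟩, by simp⟩
  refine ⟨T, hTf, le_antisymm hNJ ?_⟩
  intro v hv
  have hvM : v ∈ N.toSubmodule ⊔ Submodule.span ℚ {y} := hKM (hJK hv)
  obtain ⟨w, hw, a, ha, rfl⟩ := Submodule.mem_sup.1 hvM
  obtain ⟨q, rfl⟩ := Submodule.mem_span_singleton.1 ha
  by_cases hq : q = 0
  · subst hq; simpa using hw
  · exfalso
    apply hyJ
    have h1 : q • y ∈ J := by
      have := J.sub_mem hv (hNJ hw)
      simpa using this
    have h2 := J.smul_mem q⁻¹ h1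
    rwa [smul_smul, inv_mul_cancel₀ hq, one_smul] at h2

/-- Existence of a codimension one ideal containing `I`. -/
theorem stepA (k : ℕ) (hk : ∀ x : L, ad ℚ L x ^ k = 0) (K I : LieSubalgebra ℚ L) (hIK : I ≤ K)
    (hid : ∀ x ∈ K, ∀ z ∈ I, ⁅x, z⁆ ∈ I) (V : Submodule ℚ L) [FiniteDimensional ℚ V]
    (hV : K.toSubmodule ≤ I.toSubmodule ⊔ V) (hVK : V ≤ K.toSubmodule) (hne : ¬ K ≤ I) :
    ∃ (J : LieSubalgebra ℚ L) (y : L), I ≤ J ∧ J ≤ K ∧ y ∈ K ∧ y ∉ J ∧
      (∀ x ∈ K, ∀ z ∈ K, ⁅x, z⁆ ∈ J) ∧ (∀ s ∈ K, ∃ z ∈ J, ∃ t : ℚ, s = z + t • y) := by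
  classical
  let I' : LieIdeal ℚ K :=
    { (I.toSubmodule.comap K.toSubmodule.subtype) with
      lie_mem := by
        intro x m hm
        exact hid x x.2 m hm }
  have hI' : ∀ x : K, x ∈ I' ↔ (x : L) ∈ I := fun x => Iff.rfl
  let Q := K ⧸ I'
  have hfin : FiniteDimensional ℚ Q := by
    -- V → K ⧸ I' is surjective
    let g : V →ₗ[ℚ] K := Submodule.inclusion hVK
    let f : V →ₗ[ℚ] Q := (LieSubmodule.Quotient.mk' I' : K →ₗ[ℚ] Q) ∘ₗ g
    apply Module.Finite.of_surjective f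
    intro q
    obtain ⟨x, rfl⟩ := LieSubmodule.Quotient.surjective_mk' I' q
    obtain ⟨i, hi, v, hv, hx⟩ := Submodule.mem_sup.1 (hV x.2)
    refine ⟨⟨v, hv⟩, ?_⟩
    show LieSubmodule.Quotient.mk' I' (g ⟨v, hv⟩) = LieSubmodule.Quotient.mk' I' x
    have h0 : LieSubmodule.Quotient.mk' I' (x - g ⟨v, hv⟩) = 0 := by
      rw [LieSubmodule.Quotient.mk'_apply, LieSubmodule.Quotient.mk_eq_zero', hI']
      have : ((x - g ⟨v, hv⟩ : K) : L) = i := by
        have h2 : ((g ⟨v, hv⟩ : K) : L) = v := rfl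
        have h3 : ((x - g ⟨v, hv⟩ : K) : L) = (x : L) - ((g ⟨v, hv⟩ : K) : L) := rfl
        rw [h3, h2, ← hx]; abel
      rw [this]; exact hi
    rw [map_sub, sub_eq_zero] at h0
    exact h0.symm
  have hnil : LieRing.IsNilpotent Q := by
    rw [LieAlgebra.isNilpotent_iff_forall (R := ℚ)]
    intro q
    obtain ⟨x, rfl⟩ := LieSubmodule.Quotient.surjective_mk' I' q
    refine ⟨k, ?_⟩
    ext q'
    obtain ⟨z, rfl⟩ := LieSubmodule.Quotient.surjective_mk' I' q'
    have key : ∀ (j : ℕ), ∃ z' : K, (z' : L) = (ad ℚ L x ^ j) z ∧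
        (ad ℚ Q (LieSubmodule.Quotient.mk' I' x) ^ j) (LieSubmodule.Quotient.mk' I' z) =
          LieSubmodule.Quotient.mk' I' z' := by
      intro j
      induction j with
      | zero => exact ⟨z, by simp, by simp⟩
      | succ j ih =>
        obtain ⟨z', h1, h2⟩ := ih
        refine ⟨⁅x, z'⁆, ?_, ?_⟩
        · rw [pow_succ', Module.End.mul_apply, ← h1]; rfl
        · rw [pow_succ', Module.End.mul_apply, h2]; rfl
    obtain ⟨z', h1, h2⟩ := key k
    rw [h2, LinearMap.zero_apply]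
    rw [hk, LinearMap.zero_apply] at h1
    have : z' = 0 := by ext; simpa using h1
    rw [this, map_zero]
  -- the derived algebra is proper
  have hlt : ((LieModule.lowerCentralSeries ℚ Q Q 1 : LieSubmodule ℚ Q Q) : Submodule ℚ Q) < ⊤ := by
    rw [lt_top_iff_ne_top]
    intro htop
    have htop' : LieModule.lowerCentralSeries ℚ Q Q 1 = ⊤ := by
      rw [← LieSubmodule.toSubmodule_eq_top]; exact htop
    have hall : ∀ n, LieModule.lowerCentralSeries ℚ Q Q n = ⊤ := by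
      intro n
      induction n with
      | zero => exact LieModule.lowerCentralSeries_zero ℚ Q Q
      | succ n ih =>
        have h1 := LieModule.lowerCentralSeries_succ ℚ Q Q 0
        rw [LieModule.lowerCentralSeries_zero] at h1
        rw [LieModule.lowerCentralSeries_succ, ih, ← h1]
        exact htop'
    obtain ⟨n, hn⟩ := (LieModule.isNilpotent_iff ℚ Q Q).1 hnil
    rw [hall n] at hn
    apply hne
    intro x hx
    have h0 : LieSubmodule.Quotient.mk' I' (⟨x, hx⟩ : K) ∈ (⊥ : LieSubmodule ℚ Q Q) := by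
      rw [← hn]; exact LieSubmodule.mem_top _
    rw [LieSubmodule.mem_bot, LieSubmodule.Quotient.mk'_apply, LieSubmodule.Quotient.mk_eq_zero',
      hI'] at h0
    exact h0
  obtain ⟨f, hf0, hf⟩ := Submodule.exists_le_ker_of_lt_top _ hlt
  -- the functional on `K`
  let g : K →ₗ[ℚ] ℚ := f ∘ₗ (LieSubmodule.Quotient.mk' I' : K →ₗ[ℚ] Q)
  have hg : ∀ x : K, g x = f (LieSubmodule.Quotient.mk' I' x) := fun x => rfl
  have hgI : ∀ x : K, (x : L) ∈ I → g x = 0 := by
    intro x hx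
    have : LieSubmodule.Quotient.mk' I' x = 0 := by
      rw [LieSubmodule.Quotient.mk'_apply, LieSubmodule.Quotient.mk_eq_zero', hI']
      exact hx
    rw [hg, this, map_zero]
  have hgb : ∀ x z : K, g ⁅x, z⁆ = 0 := by
    intro x z
    have h1 := LieModule.lowerCentralSeries_succ ℚ Q Q 0
    rw [LieModule.lowerCentralSeries_zero] at h1
    have h2 : (LieSubmodule.Quotient.mk' I' ⁅x, z⁆ : Q) ∈
        LieModule.lowerCentralSeries ℚ Q Q 1 := by
      rw [show (1 : ℕ) = 0 + 1 from rfl, h1]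
      exact LieSubmodule.lie_mem_lie (LieSubmodule.mem_top
        (LieSubmodule.Quotient.mk' I' x)) (LieSubmodule.mem_top (LieSubmodule.Quotient.mk' I' z))
    exact hf h2
  obtain ⟨q, hq⟩ : ∃ q, f q ≠ 0 := by
    by_contra hcon
    push Not at hcon
    exact hf0 (LinearMap.ext hcon)
  obtain ⟨y, rfl⟩ := LieSubmodule.Quotient.surjective_mk' I' q
  have hy : g y ≠ 0 := hq
  let J : LieSubalgebra ℚ L :=
    { (LinearMap.ker g).map K.toSubmodule.subtype with
      lie_mem' := by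
        rintro u v ⟨u', hu', rfl⟩ ⟨v', hv', rfl⟩
        exact ⟨(@Bracket.bracket K K _ u' v' : K), hgb u' v', rfl⟩ }
  have hJ : ∀ x : K, (x : L) ∈ J ↔ g x = 0 := by
    intro x
    constructor
    · rintro ⟨x', hx', hxx⟩
      have : x' = x := Subtype.ext hxx
      rw [← this]; exact hx'
    · intro h
      exact ⟨x, h, rfl⟩
  refine ⟨J, y, ?_, ?_, y.2, ?_, ?_, ?_⟩
  · intro x hx
    exact (hJ ⟨x, hIK hx⟩).2 (hgI ⟨x, hIK hx⟩ hx)
  · rintro _ ⟨x, _, rfl⟩
    exact x.2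
  · rw [hJ]; exact hy
  · intro x hx z hz
    exact (hJ ⁅(⟨x, hx⟩ : K), (⟨z, hz⟩ : K)⁆).2 (hgb _ _)
  · intro s hs
    refine ⟨s - (g ⟨s, hs⟩ / g y) • (y : L), ?_, g ⟨s, hs⟩ / g y, by abel⟩
    have := (hJ (⟨s, hs⟩ - (g ⟨s, hs⟩ / g y) • y)).2 (by
      rw [map_sub, map_smul, smul_eq_mul, div_mul_cancel₀ _ hy, sub_self])
    exact this

theorem aux (k : ℕ) (hk : ∀ x : L, ad ℚ L x ^ k = 0) (n : ℕ) :
    ∀ (K I : LieSubalgebra ℚ L) (_ : I ≤ K)
    (_ : ∀ x ∈ K, ∀ z ∈ I, ⁅x, z⁆ ∈ I) (V : Submodule ℚ L) (_ : FiniteDimensional ℚ V)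
    (_ : K.toSubmodule ≤ I.toSubmodule ⊔ V) (_ : V ≤ K.toSubmodule)
    (_ : Module.finrank ℚ V ≤ n) (_ : ∃ S : Set L, S.Finite ∧ LieSubalgebra.lieSpan ℚ L S = K),
    ∃ S : Set L, S.Finite ∧ LieSubalgebra.lieSpan ℚ L S = I := by
  induction n with
  | zero =>
    intro K I hIK hid V hfV hV hVK hn hS
    have h0 : V = ⊥ := Submodule.finrank_eq_zero.1 (Nat.le_zero.1 hn)
    subst h0
    rw [sup_bot_eq] at hV
    have : K = I := le_antisymm hV hIK
    rwa [this] at hS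
  | succ n ih =>
    intro K I hIK hid V hfV hV hVK hn hS
    by_cases hne : K ≤ I
    · have : K = I := le_antisymm hne hIK
      rwa [this] at hS
    obtain ⟨J, y, hIJ, hJK, hyK, hyJ, hbr, hcod⟩ := stepA k hk K I hIK hid V hV hVK hne
    have hSJ := stepB k hk K J y hJK hyK hyJ (fun x hx z hz => hbr x hx z (hJK hz)) hcod hS
    have hlt : V ⊓ J.toSubmodule < V := by
      refine lt_of_le_of_ne inf_le_left ?_
      intro h
      rw [inf_eq_left] at h
      have h3 : I.toSubmodule ⊔ V ≤ J.toSubmodule := sup_le hIJ h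
      exact hyJ (h3 (hV hyK))
    have hrank := Submodule.finrank_lt_finrank_of_lt hlt
    refine ih J I hIJ (fun x hx z hz => hid x (hJK hx) z hz) (V ⊓ J.toSubmodule)
      inferInstance ?_ inf_le_right (by omega) hSJ
    intro x hx
    obtain ⟨i, hi, v, hv, rfl⟩ := Submodule.mem_sup.1 (hV (hJK hx))
    refine Submodule.add_mem_sup hi ⟨hv, ?_⟩
    have := J.sub_mem hx (hIJ hi)
    simpa using this

theorem stmtT4 : StmtT4 := by
  intro L _ _ k hk K I hIK hid hS hF
  obtain ⟨F, hFf, hF⟩ := hF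
  have : FiniteDimensional ℚ (Submodule.span ℚ F) := FiniteDimensional.span_of_finite ℚ hFf
  refine aux k hk (Module.finrank ℚ (Submodule.span ℚ F)) K I hIK hid
    (Submodule.span ℚ F ⊓ K.toSubmodule) inferInstance ?_ inf_le_right
    (Submodule.finrank_mono inf_le_left) hS
  intro x hx
  obtain ⟨i, hi, v, hv, rfl⟩ := Submodule.mem_sup.1 (hF hx)
  refine Submodule.add_mem_sup hi ⟨hv, ?_⟩
  have := K.sub_mem hx (hIK hi)
  simpa using this

end Pool.Agent.Helper96.Kos
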