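import Pool.Agent.Helper84.Kos.Goals2

set_option autoImplicit false

namespace Pool.Agent.Helper96.Kos

open LieAlgebra Pool.Agent.Helper84.Kos

theorem isPol_comp {G H : Type} [Group G] [Group H] (φ : H →* G) :
    ∀ (d : ℕ) (f : G → ℚ), IsPol d f → IsPol d (fun x => f (φ x)) := by
  intro d
  induction d with
  | zero => intro f hf x; exact hf (φ x)
  | succ d ih =>
    intro f hf g
    have h1 := ih _ (hf (φ g))
    simpa only [map_mul] using h1

theorem engelG_sub {k : ℕ} {G : Type} [Group G] (h : EngelG k G) (K : Subgroup G) :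
    EngelG k K := by
  intro x y
  have h1 : ∀ (n : ℕ), (((fun z : K => z⁻¹ * y⁻¹ * z * y)^[n] x : K) : G) =
      (fun z : G => z⁻¹ * (y : G)⁻¹ * z * y)^[n] (x : G) := by
    intro n
    induction n with
    | zero => rfl
    | succ n ih =>
      rw [Function.iterate_succ', Function.iterate_succ', Function.comp_apply,
        Function.comp_apply, ← ih]
      rfl
  ext
  rw [h1 k, h]
  rfl

theorem rightOrd_sub {G : Type} [Group G] (h : RightOrd G) (K : Subgroup G) : RightOrd K := by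
  obtain ⟨r, h1, h2, h3, h4⟩ := h
  refine ⟨fun a b => r a b, fun a => h1 a, fun a b c => h2 a b c, fun a b => ?_,
    fun a b c hab => h4 a b c hab⟩
  rcases h3 a b with h | h | h
  · exact Or.inl h
  · exact Or.inr (Or.inl (Subtype.ext h))
  · exact Or.inr (Or.inr h)

/-- good subgroups -/
def Good {G : Type} [Group G] (Γ K : Subgroup G) : Prop :=
  Group.FG K ∧ Γ ≤ K ∧ ∀ (d : ℕ) (u : K → ℚ), IsPol d u →
    ∃ (D : ℕ) (F : G → ℚ), IsPol D F ∧ ∀ n : K, F n = u n

theorem good_step (h2 : StmtG2) (h3 : StmtG3) (h4 : StmtG4) (h6 : StmtG6) (k c : ℕ)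
    (hk : 1 ≤ k) (hB : Bound k c) (G : Type) [Group G] (hE : EngelG k G) (hR : RightOrd G)
    (a b : G) (hab : Subgroup.closure {a, b} = ⊤)
    (hne : (⊤ : Subgroup G).lowerCentralSeries c ≠ ⊥) (K : Subgroup G)
    (hK : Good ((⊤ : Subgroup G).lowerCentralSeries c) K) :
    ∃ K' : Subgroup G, Good ((⊤ : Subgroup G).lowerCentralSeries c) K' ∧ K' ≤ K ∧
      K'.relIndex K = 0 := by
  obtain ⟨hfg, hΓ, hext⟩ := hK
  have hnt : Nontrivial K := by
    obtain ⟨⟨g, hg⟩, hg1⟩ := (Subgroup.ne_bot_iff_exists_ne_one).1 hne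
    refine ⟨⟨⟨g, hΓ hg⟩, 1, fun h => hg1 ?_⟩⟩
    ext
    have := congrArg (Subtype.val) h
    exact this
  obtain ⟨f, hf⟩ := h6 k K (engelG_sub hE K) (rightOrd_sub hR K) hfg hnt
  have hfgker := h4 k K (engelG_sub hE K) hfg f hf
  let e : f.ker ≃* f.ker.map K.subtype :=
    f.ker.equivMapOfInjective K.subtype K.subtype_injective
  have he : ∀ n : f.ker, ((e n : f.ker.map K.subtype) : G) = ((n : K) : G) := fun n => rfl
  refine ⟨f.ker.map K.subtype, ⟨?_, ?_, ?_⟩, ?_, ?_⟩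
  · exact Group.fg_of_surjective (f := e.toMonoidHom) e.surjective
  · intro g hg
    have hgK := hΓ hg
    let v : K → ℚ := fun x => ((Multiplicative.toAdd (f x) : ℤ) : ℚ)
    have hv : IsPol 2 v := by
      intro g₁ g₂ x
      simp only [v, map_mul, toAdd_mul, Int.cast_add]
      ring
    obtain ⟨D, F, hF, hFu⟩ := hext 2 v hv
    have h5 := h2 k c hk hB G hE a b hab D F hF g hg 1
    rw [one_mul] at h5
    have h6 := hFu ⟨g, hgK⟩
    have h7 := hFu 1
    rw [OneMemClass.coe_one, ← h5, h6] at h7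
    have h8 : v 1 = 0 := by simp [v]
    rw [h8] at h7
    refine ⟨⟨g, hgK⟩, ?_, rfl⟩
    have h9 : Multiplicative.toAdd (f ⟨g, hgK⟩) = 0 := Int.cast_eq_zero.1 (h7 : ((Multiplicative.toAdd (f ⟨g, hgK⟩) : ℤ) : ℚ) = 0)
    show f ⟨g, hgK⟩ = 1
    exact h9
  · intro d u hu
    have hu' : IsPol d (fun n : f.ker => u (e n)) := isPol_comp e.toMonoidHom d u hu
    obtain ⟨D, v, hv, hvu⟩ := h3 k K (engelG_sub hE K) f hf d _ hu'
    obtain ⟨D', F, hF, hFv⟩ := hext D v hv
    refine ⟨D', F, hF, ?_⟩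
    intro n
    obtain ⟨m, rfl⟩ := e.surjective n
    rw [he, hFv, hvu]
  · rintro _ ⟨x, _, rfl⟩
    exact x.2
  · rw [Subgroup.relIndex, Subgroup.subgroupOf,
      Subgroup.comap_map_eq_self_of_injective K.subtype_injective, Subgroup.index_ker,
      MonoidHom.range_eq_top.2 hf, Nat.card_congr Subgroup.topEquiv.toEquiv]
    exact Nat.card_eq_zero_of_infinite

theorem stmtG7 (h2 : StmtG2) (h3 : StmtG3) (h4 : StmtG4) (h5 : StmtG5) (h6 : StmtG6) :
    StmtG7 := by
  intro k c hk hB G _ hE hR a b hab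
  by_contra hne
  set Γ := (⊤ : Subgroup G).lowerCentralSeries c with hΓ
  have hfgG : Group.FG G := Group.fg_iff.2 ⟨{a, b}, hab, by simp⟩
  have htop : Good Γ ⊤ := by
    refine ⟨Group.fg_of_surjective (f := (Subgroup.topEquiv (G := G)).symm.toMonoidHom)
      (Subgroup.topEquiv (G := G)).symm.surjective, le_top, ?_⟩
    intro d u hu
    exact ⟨d, fun x => u ⟨x, trivial⟩,
      isPol_comp (Subgroup.topEquiv (G := G)).symm.toMonoidHom d u hu, fun n => rfl⟩
  have hstep : ∀ K : {K : Subgroup G // Good Γ K}, ∃ K' : {K : Subgroup G // Good Γ K},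
      K'.1 ≤ K.1 ∧ K'.1.relIndex K.1 = 0 := by
    rintro ⟨K, hK⟩
    obtain ⟨K', h1, h2, h3⟩ := good_step h2 h3 h4 h6 k c hk hB G hE hR a b hab hne K hK
    exact ⟨⟨K', h1⟩, h2, h3⟩
  choose st hst1 hst2 using hstep
  let sq : ℕ → {K : Subgroup G // Good Γ K} := fun n => Nat.rec ⟨⊤, htop⟩ (fun _ K => st K) n
  have hsq : ∀ n, sq (n + 1) = st (sq n) := fun n => rfl
  let π : G →* G ⧸ Γ := QuotientGroup.mk' Γ
  have hπ : Function.Surjective π := QuotientGroup.mk'_surjective Γ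
  have hfgQ : Group.FG (G ⧸ Γ) := Group.fg_of_surjective hπ
  have hQ : (⊤ : Subgroup (G ⧸ Γ)).lowerCentralSeries c = ⊥ := by
    rw [← MonoidHom.range_eq_top.2 hπ, MonoidHom.range_eq_map, ← Subgroup.map_lowerCentralSeries]
    rw [← hΓ, Subgroup.map_eq_bot_iff, QuotientGroup.ker_mk']
  obtain ⟨m, hm⟩ := h5 (G ⧸ Γ) c hfgQ hQ (fun n => (sq n).1.map π) (by
    apply antitone_nat_of_succ_le
    intro n
    exact Subgroup.map_mono (hst1 (sq n)))
  apply hm
  show ((sq (m + 1)).1.map π).relIndex ((sq m).1.map π) = 0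
  rw [← Subgroup.relIndex_comap, Subgroup.comap_map_eq, QuotientGroup.ker_mk',
    sup_eq_left.2 (sq (m + 1)).2.2.1]
  exact hst2 (sq m)

end Pool.Agent.Helper96.Kos
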